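import Pool.Agent.K1H12.RP.Main

/-!
# MP_80bee4_ag: lisse sheaves on fibrations and on fibre products

Let `X₁ → B` and `X₂ → B` be smooth morphisms with geometrically connected fibres, proper or with a
compactification relative to `B` for which the homotopy exact sequence holds (tame fundamental groups,
or families of curves, or after shrinking `B`), of smooth varieties over a finite field, let `P` be the
fundamental group of the fibre product `X₁ ×_B X₂` and let `N₁`, `N₂` be the images of the fundamental
groups of the geometric fibres of `X₁ → B` and of `X₂ → B` (of the fibres of the projections to `X₂` and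
to `X₁`). These are commuting normal subgroups of `P` (the fundamental group of the product of two
fibres is the product), and `P / N₂`, `P / N₁`, `P / N₁ N₂` are the fundamental groups of `X₁`, `X₂`,
`B`. For `X₂ = B` one has `N₂ = 1`, this is the case of one fibration `X₁ → B`.

Let `φ : P → W` be the homomorphism to the fundamental group `W` of a smooth variety `X` which is given
by a dominant morphism from `X₁ ×_B X₂` (or from an open subscheme with complement of codimension at
least two) to `X`; its image has finite index. The theorem is about all profinite groups `P` with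
commuting normal subgroups `N₁`, `N₂` and all continuous homomorphisms `φ` with image of finite index.

THEOREM.  Let `ρ` be an irreducible lisse sheaf on `X` with coefficients in the algebraically closed
normed field `E` (`ℚ̄_ℓ`), whose determinant is of finite order. There is a connected finite étale cover
`X'` of `X₁ ×_B X₂` (an open subgroup `H` of `P`) and there are lisse sheaves `ρ₁`, `ρ₂`, `γ` on `X'`
such that `ρ₁ ⊗ ρ₂ ⊗ γ` is a subsheaf of the pullback of `ρ` and
* `ρ₁` and `ρ₂` have trivial determinant;
* `ρ₁` is trivial on `N₂`, so it is the pullback of a lisse sheaf on a finite étale cover of `X₁`, and its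
  restriction to the fibres of `X₁ → B` is irreducible on all finite étale covers; likewise for `ρ₂`;
* `γ` is irreducible on all finite étale covers and `N₁`, `N₂` act on it by scalars;
* if the continuous characters of the open subgroups of `W` are of finite order on the geometric
  fundamental group (`CharactersFinite`; this is class field theory, Weil II, 1.3.1) then `γ` is trivial
  on `N₁` and on `N₂`, so **it is the pullback of a lisse sheaf on a finite étale cover of `B`**, and its
  determinant is of finite order.

Consequences for the problem (not formalised; by Frobenius reciprocity `ρ` is a quotient of the direct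
image of `ρ₁ ⊗ ρ₂ ⊗ γ`, and geometric origin is stable under tensor products, direct images by finite
morphisms and quotients): `ρ` is of geometric origin if `ρ₁`, `ρ₂` and `γ` are. So the question for
varieties dominated by `X₁ ×_B X₂`, for example by fibre powers `X₁ ×_B ⋯ ×_B X₁`, is reduced to the
question for finite étale covers of `X₁`, `X₂` and `B`. If `B` is a curve then `γ` is of geometric origin
(Lafforgue). In particular (`N₂ = 1`) for a fibration `X₁ → B` over a curve the question is reduced to
the lisse sheaves with trivial determinant which are irreducible on all finite étale covers of the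
geometric fibres.

The result `ProductsOfVarieties` (helper13) on this problem treats products of two varieties (`B` the
spectrum of a finite field, Weil groups); some of its lemmas are used (Schur's lemma, spaces of
equivariant maps, determinants). There the decomposition exists over the group itself, because the group
of the base is cyclic. Here the projective representation of `P` on the constituent has to be lifted:
this is possible on an open subgroup, because an element near the identity has a unique intertwining
operator of determinant one near the identity.
-/

set_option autoImplicit false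

namespace Pool.Agent.Results.MP_80bee4_ag.FibreProducts

open Module TensorProduct Pool.Agent.K1H13.GO Pool.Agent.K1H12.RP

/-- **Lisse sheaves on fibrations and on fibre products**: after a finite étale cover they contain
tensor products of sheaves which are irreducible along the fibres and of a sheaf on the base. -/
theorem result {E : Type} [NormedField E] [IsAlgClosed E]
    -- the fundamental groups of `X` and of the fibre product
    {W P : Type} [Group W] [TopologicalSpace W] [IsTopologicalGroup W] [T2Space W]
    [Group P] [TopologicalSpace P] [IsTopologicalGroup P] [CompactSpace P]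
    [TotallyDisconnectedSpace P]
    -- the dominant morphism
    (φ : P →* W) (hφ : Continuous φ) (hfin : φ.range.FiniteIndex)
    -- the fundamental groups of the fibres
    (N₁ N₂ : Subgroup P) [N₁.Normal] [N₂.Normal] (hcomm : ∀ x ∈ N₁, ∀ y ∈ N₂, x * y = y * x)
    -- the lisse sheaf
    {V : Type} [AddCommGroup V] [Module E V] [FiniteDimensional E V]
    (ρ : Representation E W V) (hρ : IsContinuousRep ρ) (hirr : ρ.IsIrreducible)
    (hdet : FiniteDeterminant ρ) :
    ∃ (H : Subgroup P) (A₁ A₂ M : Type) (_ : AddCommGroup A₁)
      (_ : Module E A₁) (_ : AddCommGroup A₂) (_ : Module E A₂) (_ : AddCommGroup M)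
      (_ : Module E M) (ρ₁ : Representation E H A₁) (ρ₂ : Representation E H A₂)
      (γ : Representation E H M) (T : (A₁ ⊗[E] (A₂ ⊗[E] M)) →ₗ[E] V),
      IsOpen (H : Set P) ∧
      -- `ρ₁` comes from `X₁`, `ρ₂` comes from `X₂`
      IsFibral N₁ N₂ ρ₁ ∧ IsFibral N₂ N₁ ρ₂ ∧ IsBasic N₁ N₂ γ ∧
      -- the tensor product is a subrepresentation of the restriction of `ρ` along `φ`
      Function.Injective T ∧
      (∀ (h : H) a₁ a₂ m, T (ρ₁ h a₁ ⊗ₜ (ρ₂ h a₂ ⊗ₜ γ h m)) =
        ρ (φ h) (T (a₁ ⊗ₜ (a₂ ⊗ₜ m)))) ∧
      -- `γ` comes from `B`, and its determinant is of finite order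
      ∀ geom : Subgroup W, (∀ x y : W, x * y * x⁻¹ * y⁻¹ ∈ geom) → CharactersFinite E geom →
        TrivialOn N₁ γ ∧ TrivialOn N₂ γ ∧ FiniteDeterminant γ := by
  obtain ⟨H, A₁, A₂, M, _, _, _, _, _, _, ρ₁, ρ₂, γ, T, hH, hA₁, hA₂, hM, hc₁, hc₂, hc, hT, hT',
    hd₁, hd₂, ht₁, ht₂, hs, hi₁, hi₂, hi, hdet⟩ :=
      decomposition φ hφ hfin N₁ N₂ hcomm ρ hρ hirr hdet
  refine ⟨H, A₁, A₂, M, _, _, _, _, _, _, ρ₁, ρ₂, γ, T, hH, ⟨hA₁, hc₁, hd₁, ht₁, hi₁⟩,
    ⟨hA₂, hc₂, hd₂, ht₂, hi₂⟩, ⟨hM, hc, fun h hh => hs h (Or.inl hh),
      fun h hh => hs h (Or.inr hh), hi⟩, hT, hT', fun geom h₁ h₂ => ?_⟩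
  obtain ⟨h₃, h₄⟩ := hdet geom h₁ h₂
  exact ⟨fun h hh => h₃ h (Or.inl hh), fun h hh => h₃ h (Or.inr hh), h₄⟩

end Pool.Agent.Results.MP_80bee4_ag.FibreProducts
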