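import Pool.Agent.K1H15.OG.All

/-!
# MP_80bee4_ag: orthogonal lisse sheaves of rank three and four come from sheaves of rank two

Let `X` be a smooth geometrically connected variety over a finite field (or the function field `K` of
it), let the profinite group `P` be its fundamental group and let `ρ` be a lisse sheaf on `X` with
coefficients in the algebraically closed normed field `E` of characteristic zero (`ℚ̄_ℓ`), that is a
continuous representation of `P`, whose determinant is of finite order. An open subgroup `H` is a
connected finite étale cover `X'` of `X`.

THEOREM.
* (Rank three.) If `ρ` is irreducible of rank three and self-dual up to a character (the dual has the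
  same traces as a twist of `ρ` by a character), then over a connected finite étale cover `X'` it is
  **the adjoint sheaf of trace zero endomorphisms of a lisse sheaf `σ` of rank two** with trivial
  determinant on `X'`. If some element `x` of `P` acts on `ρ` as a unipotent matrix with one Jordan block
  of size 3 (equivalently, unipotent and not trivial), then `σ` is irreducible on all finite étale covers
  and the powers `x ^ m ∈ H`, `m > 0`, act nontrivially on `σ`.
* (Rank four.) If `ρ` is irreducible of rank four and self-dual up to a character, and if some
  element `x` of `P` acts as a unipotent matrix with Jordan blocks of size 3 and 1, then over a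
  connected finite étale cover `X'` **`ρ` is the tensor product of two lisse sheaves `σ₁` and `σ₂` of
  rank two** with trivial determinant on `X'` (in the form `σ₁ ⊗ σ₂^∨ = Hom(σ₂, σ₁)`; a representation
  in `SL₂` is self-dual), which are irreducible on all finite étale covers, and all powers
  `x ^ m ∈ H`, `m > 0`, act nontrivially on `σ₁` and on `σ₂`.
* (Orthogonal rank four.) The same decomposition holds for every `ρ` of rank four, irreducible or
  not, with a symmetric nondegenerate form which is preserved up to factors.

Consequences for the problem (not formalised). Let `ρ` be irreducible with determinant of finite order.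
It is pure of weight zero (Lafforgue, Deligne), so the dual has the complex conjugate traces, and `ρ` is
self-dual if its Frobenius traces are totally real, for instance rational. If the monodromy of `ρ` at a
divisor at infinity is infinite, then a power of a generator of the tame inertia group is unipotent
and not trivial (Grothendieck), and the same is true for `σ` in rank three; in rank four it is true for
`σ₁` and `σ₂` if the Jordan blocks have the sizes 3 and 1. By the theorem of Krishnamoorthy and Pál
(Rank 2 local systems and abelian varieties II, with the existence of companions) every irreducible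
sheaf of rank two with infinite monodromy at infinity comes, up to a twist, from a family of abelian
varieties on an open subvariety. Geometric origin is stable under tensor operations, and `ρ` is a quotient
of the direct image of its pullback to `X'`. So the answer to the question is yes, on varieties of
every dimension,

* for all irreducible sheaves of **rank three with rational or totally real Frobenius traces** (more
  generally which are self-dual up to a character) **with infinite monodromy at infinity**;
* for all irreducible sheaves of **rank four** with totally real Frobenius traces (or self-dual up to a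
  character) which have at some divisor at infinity a unipotent monodromy with **Jordan blocks of
  size 3 and 1**;

and in general the question for orthogonal sheaves of rank three and four is reduced to sheaves of
rank two.

The proof. Irreducible representations with the same traces are isomorphic, so there is an invariant
bilinear form, up to a character, which is symmetric or alternating; alternating forms are impossible in
odd rank, and in the presence of `x` in rank four: the form `b (a, (x - 2 + x⁻¹) a')` would be alternating
of rank one. The factor is of finite order because of the determinant, so it is trivial on an open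
subgroup. A nondegenerate symmetric form of rank four is the determinant on 2 x 2 matrices. If `g` is an
isometry of the determinant then the four matrices `g(q)`, `q` a quaternion unit, satisfy the same
relations as the units; by averaging `(1, 1)` four times one gets a pair `(C₁, C₂)`, depending
continuously on `g` and tending to `(1, 1)` for `g → 1`, with `g(X) C₂ = C₁ X`. The square root of
the determinant near `1` gives a lift to `SL₂ × SL₂`, which is unique up to a common sign and hence
multiplicative on a small open subgroup. If a line is stable under `σ₁` on an open normal subgroup
then it gives a stable subspace of `ρ` of dimension two, on all conjugates of which a power `y` of `x`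
satisfies `(y - 1)² = 0`; but these subspaces span `ρ`.
-/

set_option autoImplicit false

namespace Pool.Agent.Results.MP_80bee4_ag.OrthogonalSheaves

open Module Matrix Pool.Agent.K1H13.GO Pool.Agent.K1H15.OG

/-- **Orthogonal lisse sheaves of rank three and four come from lisse sheaves of rank two** after a
finite étale cover. -/
theorem result {E : Type} [NormedField E] [IsAlgClosed E] [CharZero E]
    -- the fundamental group
    {P : Type} [Group P] [TopologicalSpace P] [IsTopologicalGroup P] [CompactSpace P]
    [TotallyDisconnectedSpace P]
    -- the lisse sheaf, whose determinant is of finite order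
    {V : Type} [AddCommGroup V] [Module E V] [FiniteDimensional E V]
    (ρ : Representation E P V) (hρ : IsContinuousRep ρ) (hdet : FiniteDeterminant ρ) :
    -- rank three: the adjoint sheaf of a sheaf of rank two
    (finrank E V = 3 → ρ.IsIrreducible → SelfDualUpToCharacter ρ →
      ∃ (H : Subgroup P) (σ : H →* SpecialLinearGroup (Fin 2) E)
        (T : V →ₗ[E] Matrix (Fin 2) (Fin 2) E),
        IsOpen (H : Set P) ∧ Continuous σ ∧
        Function.Injective T ∧ (∀ X : Matrix (Fin 2) (Fin 2) E, X.trace = 0 ↔ ∃ v, T v = X) ∧
        (∀ (y : H) (v : V), T (ρ y v) = (σ y : Matrix (Fin 2) (Fin 2) E) * T v *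
          ((σ y)⁻¹ : SpecialLinearGroup (Fin 2) E)) ∧
        ∀ x : P, OneBlockOfSizeThree (ρ x) → IrreducibleOnOpenSubgroups σ ∧
          ∀ (m : ℕ) (hm : x ^ m ∈ H), 0 < m → σ ⟨x ^ m, hm⟩ ≠ 1) ∧
    -- rank four: the tensor product of two sheaves of rank two
    (finrank E V = 4 → ρ.IsIrreducible → SelfDualUpToCharacter ρ →
      ∀ x : P, OneBlockOfSizeThree (ρ x) →
      ∃ (H : Subgroup P) (σ₁ σ₂ : H →* SpecialLinearGroup (Fin 2) E)
        (T : V ≃ₗ[E] Matrix (Fin 2) (Fin 2) E),
        IsOpen (H : Set P) ∧ Continuous σ₁ ∧ Continuous σ₂ ∧
        (∀ (y : H) (v : V), T (ρ y v) = (σ₁ y : Matrix (Fin 2) (Fin 2) E) * T v *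
          ((σ₂ y)⁻¹ : SpecialLinearGroup (Fin 2) E)) ∧
        IrreducibleOnOpenSubgroups σ₁ ∧ IrreducibleOnOpenSubgroups σ₂ ∧
        ∀ (m : ℕ) (hm : x ^ m ∈ H), 0 < m → σ₁ ⟨x ^ m, hm⟩ ≠ 1 ∧ σ₂ ⟨x ^ m, hm⟩ ≠ 1) ∧
    -- orthogonal sheaves of rank four
    (finrank E V = 4 → ∀ (b : LinearMap.BilinForm E V) (c : P → E),
      (∀ u v, b u v = b v u) → (∀ u, (∀ v, b u v = 0) → u = 0) →
      (∀ g u v, b (ρ g u) (ρ g v) = c g * b u v) →
      ∃ (H : Subgroup P) (σ₁ σ₂ : H →* SpecialLinearGroup (Fin 2) E)
        (T : V ≃ₗ[E] Matrix (Fin 2) (Fin 2) E),
        IsOpen (H : Set P) ∧ Continuous σ₁ ∧ Continuous σ₂ ∧ (∀ v, (T v).det = b v v) ∧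
        ∀ (y : H) (v : V), T (ρ y v) = (σ₁ y : Matrix (Fin 2) (Fin 2) E) * T v *
          ((σ₂ y)⁻¹ : SpecialLinearGroup (Fin 2) E)) :=
  ⟨fun hd hirr hself => rank_three_all hd ρ hρ hdet hirr hself,
    fun hd hirr hself _ hx => rank_four_all hd ρ hρ hdet hirr hself hx,
    fun hd b c hs hn h => rank_four two_ne_zero hd b hs hn ρ hρ hdet c h⟩

end Pool.Agent.Results.MP_80bee4_ag.OrthogonalSheaves
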