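import Mathlib
import Pool.Agent.K1H13.GO.Notions
import Pool.Agent.K1H13.GO.Thm

/-!
# Lisse sheaves on varieties dominated by products

Let `X`, `X₁`, `X₂` be smooth geometrically connected varieties over a finite field and let `W`, `W₁`,
`W₂` be their Weil groups, with the degree maps `deg`, `deg₁`, `deg₂` to `ℤ` (written
multiplicatively); the kernels are the geometric fundamental groups.

If `X₁` is proper then the Weil group of `X₁ × X₂` is the group `fibreProduct deg₁ deg₂` of the pairs of
elements of the same degree (Künneth formula for fundamental groups, SGA 1, X 1.7); this is also the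
Weil group of every open subscheme of `X₁ × X₂` whose complement has codimension at least two (purity
of the branch locus). A dominant morphism from such an open subscheme to `X` (for instance a dominant
rational map from `X₁ × X₂` to a proper variety `X`) gives a continuous homomorphism `φ` from
`fibreProduct deg₁ deg₂` to `W` which preserves the degree, has an image of finite index and is open.
The same is true for tame fundamental groups, where no properness is needed.

THEOREM.  Let `ρ` be an irreducible lisse sheaf on `X` with coefficients in the algebraically closed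
field `E` (`ℚ̄_ℓ`), whose determinant is of finite order. There are `m > 0` and lisse sheaves `ρ₁` on
`X₁ ⊗ 𝔽_{q^m}` and `ρ₂` on `X₂ ⊗ 𝔽_{q^m}` (continuous representations of `baseChange deg₁ m` and
`baseChange deg₂ m`), which are geometrically irreducible, such that the external tensor product of
`ρ₁` and `ρ₂` is isomorphic to a subrepresentation of the restriction of `ρ` to
`(X₁ × X₂) ⊗ 𝔽_{q^m}`. If moreover the continuous characters of open subgroups of finite index of `W`
and of `W₁` are of finite order on the elements of degree zero (`GeometricCharactersFinite`; this is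
class field theory, Weil II, 1.3.1), then the determinants of `ρ₁` and of `ρ₂` are of finite order.

Consequence for the problem: by Frobenius reciprocity `ρ` is a quotient of the direct image of the
external tensor product of `ρ₁` and `ρ₂` (over a nonempty open subscheme of `X`). So `ρ` is of geometric
origin if `ρ₁` and `ρ₂` are. If `X₁` and `X₂` are curves they are, by the theorem of Lafforgue; by
induction on the number of factors every irreducible lisse sheaf, with determinant of finite order, on a
smooth variety `X` dominated (as above) by a product of smooth curves, all but one of them proper, is of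
geometric origin.
-/

set_option autoImplicit false

namespace Pool.Agent.Results.MP_80bee4_ag.ProductsOfVarieties

open Module TensorProduct Pool.Agent.K1H13.GO

theorem result {E : Type} [Field E] [IsAlgClosed E] [TopologicalSpace E] [IsTopologicalRing E]
    -- the Weil groups
    {W W₁ W₂ : Type} [Group W] [Group W₁] [Group W₂]
    [TopologicalSpace W] [IsTopologicalGroup W] [TopologicalSpace W₁] [IsTopologicalGroup W₁]
    [TopologicalSpace W₂] [IsTopologicalGroup W₂]
    (deg : W →* Multiplicative ℤ) (deg₁ : W₁ →* Multiplicative ℤ) (deg₂ : W₂ →* Multiplicative ℤ)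
    (hdeg : Continuous deg) (hdeg₁ : Continuous deg₁) (hdeg₂ : Continuous deg₂)
    (hfrob₁ : ∃ F, deg₁ F = Multiplicative.ofAdd 1) (hfrob₂ : ∃ F, deg₂ F = Multiplicative.ofAdd 1)
    -- the dominant morphism
    (φ : fibreProduct deg₁ deg₂ →* W) (hcontinuous : Continuous φ) (hopen : IsOpenMap φ)
    (hindex : φ.range.FiniteIndex) (hdegree : ∀ p, deg (φ p) = deg₁ p.1.1)
    -- the lisse sheaf
    {V : Type} [AddCommGroup V] [Module E V] [FiniteDimensional E V]
    (ρ : Representation E W V) (hρ : IsContinuousRep ρ) (hirr : ρ.IsIrreducible)
    (hdet : FiniteDeterminant ρ) :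
    ∃ (m : ℕ) (A B : Type) (_ : AddCommGroup A) (_ : Module E A) (_ : AddCommGroup B)
      (_ : Module E B) (ρ₁ : Representation E (baseChange deg₁ m) A)
      (ρ₂ : Representation E (baseChange deg₂ m) B) (T : A ⊗[E] B →ₗ[E] V),
      0 < m ∧ FiniteDimensional E A ∧ FiniteDimensional E B ∧
      IsContinuousRep ρ₁ ∧ IsContinuousRep ρ₂ ∧
      GeometricallyIrreducible deg₁ m ρ₁ ∧ GeometricallyIrreducible deg₂ m ρ₂ ∧
      Function.Injective T ∧
      (∀ (p : fibreProduct deg₁ deg₂) (h₁ : p.1.1 ∈ baseChange deg₁ m)
        (h₂ : p.1.2 ∈ baseChange deg₂ m) (a : A) (b : B),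
        T (ρ₁ ⟨p.1.1, h₁⟩ a ⊗ₜ ρ₂ ⟨p.1.2, h₂⟩ b) = ρ (φ p) (T (a ⊗ₜ b))) ∧
      (GeometricCharactersFinite E deg → GeometricCharactersFinite E deg₁ →
        FiniteDeterminant ρ₁ ∧ FiniteDeterminant ρ₂) := by
  obtain ⟨F₁, hF₁⟩ := hfrob₁
  obtain ⟨F₂, hF₂⟩ := hfrob₂
  exact decomposition hdeg hdeg₁ hdeg₂ hF₁ hF₂ φ hcontinuous hopen hindex hdegree ρ hρ hirr hdet

end Pool.Agent.Results.MP_80bee4_ag.ProductsOfVarieties
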