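import Pool.Agent.K1H15.SF.Main

/-!
# MP_80bee4_ag: lisse sheaves with virtually solvable monodromy along the fibres of a fibration

Let `Z → B` be a proper flat morphism of smooth geometrically connected varieties over a finite field
with geometrically connected and reduced fibres, let `P` be the fundamental group of `Z` and `N` the image
of the fundamental group of a geometric fibre. This is a normal subgroup of `P`, and `P / N` is the
fundamental group of `B` (SGA 1, X 1.4). Let `φ : P → W` be the homomorphism to the fundamental group
`W` of a smooth variety `X` which is given by a dominant morphism from `Z` (or from an open subscheme of
`Z` with complement of codimension at least two) to `X`; its image has finite index. The theorem is about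
all profinite groups `P` with a normal subgroup `N` and all continuous homomorphisms `φ` with image of
finite index.

THEOREM.  Let `ρ` be an irreducible lisse sheaf on `X` with coefficients in the algebraically closed
normed field `E` (`ℚ̄_ℓ`), whose determinant is of finite order, and assume that its monodromy along the
fibres of `Z → B` is virtually solvable: the image of `N ∩ L` is solvable for an open subgroup `L` of `P`.
Assume class field theory for `X`: the continuous characters of the open subgroups of `W` are of finite
order on the geometric fundamental group (`CharactersFinite`, Weil II, 1.3.1). Then there is a connected
finite étale cover `Z'` of `Z` (an open subgroup `H` of `P`) and a lisse sheaf `γ` on `Z'` which is a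
subsheaf of the pullback of `ρ`, is **the pullback of a lisse sheaf on a finite étale cover `B'` of `B`**
(it is trivial on `N ∩ H`), is irreducible on all finite étale covers and has a determinant of finite
order. If `φ` is surjective, for example if `Z` is an open subscheme of `X`, then the monodromy of `ρ`
along the fibres is finite and **`ρ` itself becomes the pullback of a lisse sheaf on `B'`** over a finite
étale cover of `Z` (an open subgroup `L` of `P` such that `N ∩ L` acts trivially).

Consequences for the problem (not formalised; `ρ` is a quotient of the direct image of `γ`, and geometric
origin is stable under direct images and quotients). `ρ` is of geometric origin if `γ` is, and this is a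
sheaf on an étale cover of `B`. If `B` is a curve then `γ` is of geometric origin (Lafforgue), so the
answer to the question is yes

* for all irreducible lisse sheaves `ρ`, with determinant of finite order and virtually solvable
  monodromy along the fibres, on varieties fibred over a curve;
* for **all** irreducible lisse sheaves with determinant of finite order on every smooth variety `X` which
  is dominated by a variety `Z` fibred over a curve (or over a variety for whose étale covers the
  answer is yes, for instance a product of proper curves) such that the fundamental groups of the
  geometric fibres are virtually solvable: abelian schemes and their quotients by finite groups, families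
  of varieties with finite fundamental group (rationally chain connected varieties, K3 surfaces, Enriques
  surfaces, …), towers of such fibrations;
* in particular **for all smooth projective surfaces `X` of Kodaira dimension at most one**: they are
  ruled or rational, or they have an étale cover which is a K3 or an abelian surface or they are
  elliptic or quasi-elliptic over a curve; the fibration exists over an open subscheme `B` of the curve,
  whose inverse image `Z` in `X` is proper and flat over `B` with reduced fibres, and `φ` is surjective.

The proof.  By the result `FibreProducts` (helper12) of this problem, for the commuting normal subgroups
`N` and `1`, the pullback of `ρ` contains `ρ₁ ⊗ γ` over an étale cover, where `γ` comes from `B` and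
`ρ₁` has trivial determinant and is irreducible under `N ∩ L` for every open subgroup `L`. By descending
induction on `i` the `i`-th derived group `M` of `N ∩ L` acts trivially on `ρ₁`, for a small open normal
`L`: the image of `M` is commutative, its characters `χ` which occur are permuted by the group, and
since they are determined by finitely many values, which are eigenvalues, `χ` is fixed by an open
subgroup; so `M` acts by scalars, which are roots of unity of bounded order and hence trivial near `1`.
-/

set_option autoImplicit false

namespace Pool.Agent.Results.MP_80bee4_ag.SolvableFibres

open Module Pool.Agent.K1H13.GO Pool.Agent.K1H12.RP Pool.Agent.K1H15.SF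

/-- **Lisse sheaves with virtually solvable monodromy along the fibres come from the base** after a
finite étale cover. -/
theorem result {E : Type} [NormedField E] [IsAlgClosed E]
    -- the fundamental groups of `X` and of `Z`
    {W P : Type} [Group W] [TopologicalSpace W] [IsTopologicalGroup W] [T2Space W]
    [Group P] [TopologicalSpace P] [IsTopologicalGroup P] [CompactSpace P]
    [TotallyDisconnectedSpace P]
    -- the dominant morphism
    (φ : P →* W) (hφ : Continuous φ) (hfin : φ.range.FiniteIndex)
    -- the fundamental group of the fibres
    (N : Subgroup P) [N.Normal]
    -- the lisse sheaf
    {V : Type} [AddCommGroup V] [Module E V] [FiniteDimensional E V]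
    (ρ : Representation E W V) (hρ : IsContinuousRep ρ) (hirr : ρ.IsIrreducible)
    (hdet : FiniteDeterminant ρ)
    -- its monodromy along the fibres is virtually solvable
    (hsolv : ∃ L : Subgroup P, IsOpen (L : Set P) ∧ ∃ d : ℕ, ∀ x ∈ derived (N ⊓ L) d, ρ (φ x) = 1)
    -- class field theory for `X`
    (geom : Subgroup W) (hgeom : ∀ x y : W, x * y * x⁻¹ * y⁻¹ ∈ geom)
    (hchar : CharactersFinite E geom) :
    ∃ (H : Subgroup P) (M : Type) (_ : AddCommGroup M) (_ : Module E M)
      (γ : Representation E H M) (T : M →ₗ[E] V),
      IsOpen (H : Set P) ∧ FiniteDimensional E M ∧ IsContinuousRep γ ∧
      -- `γ` is irreducible on all finite étale covers, comes from `B`, its determinant is finite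
      StronglyIrreducibleOn ⊤ γ ∧ TrivialOn N γ ∧ FiniteDeterminant γ ∧
      -- `γ` is a subrepresentation of the restriction of `ρ` along `φ`
      Function.Injective T ∧ (∀ (h : H) m, T (γ h m) = ρ (φ h) (T m)) ∧
      -- `ρ` comes from `B` after a finite étale cover, if `φ` is surjective
      (Function.Surjective φ → ∃ L : Subgroup P, IsOpen (L : Set P) ∧
        ∀ x ∈ N ⊓ L, ρ (φ x) = 1) :=
  main φ hφ hfin N ρ hρ hirr hdet hsolv geom hgeom hchar

end Pool.Agent.Results.MP_80bee4_ag.SolvableFibres
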